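import Pool.Agent.Work.MP_54723a_co.TOP.Top
import Pool.Agent.Work.MP_54723a_co.Blocks

/-!
# Touching colours (note 8034) and blocked flashes (note 8066)

* `card_le_of_touch` : if some colour touches every vertex of `V` then `|V| ≤ l * N`, where `N`
  bounds the sets of rank one less.
* `TouchAt l R` : every `V` of rank at most `R` with exactly `l ^ R` vertices has a colour which
  touches every vertex. `BndAt_succ_of_TouchAt` : for `l ≥ 3`, `BndAt l R` and `TouchAt l (R + 1)`
  give `BndAt l (R + 1)`; so `TouchAt l R` for all `R ≥ 1` gives `Bnd l`.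
* `Blocked c V R` : a 2-flash `a, v, b` of colour `g` and disjoint rainbow paths without the colour
  `g` into `a` and out of `b` with `R` edges together. `BndAt_of_not_Blocked` : if no `V` of rank at
  most `R` with more than `l ^ R` vertices has a blocked flash, then there is no such `V` at all.
* `S08791_of_Touch`, `S08791_of_not_Blocked` : the frozen statement S08791 from each of them.
-/

set_option autoImplicit false

namespace FlashRainbow

open Classical

variable {c : ℕ → ℕ → ℕ} {U V T : Finset ℕ} {l R b g : ℕ} {lev : ℕ → ℕ → ℕ}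

/-! ## Touching colours -/

/-- the colour `g` touches the vertex `v` in `V` -/
def Tch (c : ℕ → ℕ → ℕ) (V : Finset ℕ) (g v : ℕ) : Prop := InE c V g v ∨ OutE c V g v

theorem InE.mono {v : ℕ} (h : InE c T g v) (hTV : T ⊆ V) : InE c V g v := by
  obtain ⟨u, hu, h1⟩ := h
  exact ⟨u, hTV hu, h1⟩

theorem OutE.mono {v : ℕ} (h : OutE c T g v) (hTV : T ⊆ V) : OutE c V g v := by
  obtain ⟨u, hu, h1⟩ := h
  exact ⟨u, hTV hu, h1⟩

theorem Tch.mono {v : ℕ} (h : Tch c T g v) (hTV : T ⊆ V) : Tch c V g v :=
  h.imp (fun h => h.mono hTV) (fun h => h.mono hTV)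

/-- the canonical levels -/
theorem exists_canon (hno : ∀ γ v, ¬ MP c V γ v l) :
    ∃ lev, Lev c V l lev ∧ ∀ γ, ∀ v ∈ V, MP c V γ v (lev γ v) := by
  refine ⟨fun γ v => Nat.findGreatest (fun j => MP c V γ v j) l, ?_, fun γ v hv =>
    Nat.findGreatest_spec (P := fun j => MP c V γ v j) (Nat.zero_le l) (MP.single hv)⟩
  have hspec : ∀ γ, ∀ v ∈ V, MP c V γ v (Nat.findGreatest (fun j => MP c V γ v j) l) :=
    fun γ v hv => Nat.findGreatest_spec (P := fun j => MP c V γ v j) (Nat.zero_le l) (MP.single hv)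
  have hlt : ∀ γ, ∀ v ∈ V, Nat.findGreatest (fun j => MP c V γ v j) l < l := by
    intro γ v hv
    refine lt_of_le_of_ne (Nat.findGreatest_le _) ?_
    intro heq
    have h1 := hspec γ v hv
    rw [heq] at h1
    exact hno γ v h1
  refine ⟨hlt, ?_⟩
  intro u hu v hv huv
  have h1 := MP.step (hspec (c u v) u hu) hv huv rfl
  have h2 := hlt (c u v) u hu
  exact Nat.le_findGreatest h2 h1

theorem MP.inE {v j : ℕ} (h : MP c V g v (j + 1)) : InE c V g v := by
  cases h with
  | @step x _ _ h hy hlt hc =>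
    have hx : x ∈ V := by
      cases h with
      | single hx => exact hx
      | step _ hy _ _ => exact hy
    exact ⟨x, hx, hlt, hc⟩

/-- a set without an arc of colour `g` whose vertices all have an arc of colour `g` into them (out
of them) in `V` has rank one less -/
theorem Rk_of_inE (hR : Rk c V (R + 1)) (hTV : T ⊆ V)
    (hfree : ∀ u ∈ T, ∀ v ∈ T, u < v → c u v ≠ g) (hin : ∀ v ∈ T, InE c V g v) : Rk c T R := by
  intro y D hD
  have hg : g ∉ D := hD.notMem_of_free hfree
  have hreach : ∀ v ∈ T, RP c V v {g} := by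
    intro v hv
    obtain ⟨u, hu, huv, hc⟩ := hin v hv
    have h1 := RP.step (c := c) (RP.single hu) (hTV hv) huv (Finset.notMem_empty _)
    rw [hc] at h1
    simpa using h1
  have h1 := hD.prepend hTV hreach (by
    intro γ hγ
    rw [Finset.mem_singleton] at hγ
    rw [hγ]
    exact hfree)
  have h2 := hR _ _ h1
  rw [Finset.card_union_of_disjoint (by rw [Finset.disjoint_singleton_right]; exact hg),
    Finset.card_singleton] at h2
  omega

theorem Rk_of_outE (hR : Rk c V (R + 1)) (hTV : T ⊆ V)
    (hfree : ∀ u ∈ T, ∀ v ∈ T, u < v → c u v ≠ g) (hout : ∀ v ∈ T, OutE c V g v) :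
    Rk c T R := by
  intro y D hD
  have hg : g ∉ D := hD.notMem_of_free hfree
  obtain ⟨w, hw, hyw, hc⟩ := hout y hD.mem
  have h1 := RP.step (hD.mono hTV) hw hyw (by rw [hc]; exact hg)
  have h2 := hR _ _ h1
  rw [hc, Finset.card_insert_of_notMem hg] at h2
  omega

/-- the level sets of a touching colour have rank one less -/
theorem Rk_level (hL : Lev c V l lev) (hM : ∀ γ, ∀ v ∈ V, MP c V γ v (lev γ v))
    (hR : Rk c V (R + 1)) (ht : ∀ v ∈ V, Tch c V g v) (i : ℕ) :
    Rk c (V.filter fun v => lev g v = i) R := by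
  have hsub : (V.filter fun v => lev g v = i) ⊆ V := Finset.filter_subset _ _
  have hfree : ∀ u ∈ V.filter (fun v => lev g v = i), ∀ v ∈ V.filter (fun v => lev g v = i),
      u < v → c u v ≠ g := hL.free hsub (by
    intro u hu v hv
    rw [(Finset.mem_filter.mp hu).2, (Finset.mem_filter.mp hv).2])
  have hM' : ∀ v ∈ V.filter (fun v => lev g v = i), MP c V g v i := by
    intro v hv
    obtain ⟨hvV, hvi⟩ := Finset.mem_filter.mp hv
    have h1 := hM g v hvV
    rwa [hvi] at h1
  rcases i with _ | i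
  · refine Rk_of_outE hR hsub hfree ?_
    intro v hv
    obtain ⟨hvV, hvi⟩ := Finset.mem_filter.mp hv
    rcases ht v hvV with ⟨u, hu, huv, hc⟩ | h
    · exfalso
      have h1 := hL.up u hu v hvV huv
      rw [hc] at h1
      omega
    · exact h
  · exact Rk_of_inE hR hsub hfree fun v hv => (hM' v hv).inE

theorem card_eq_sum_levels (hL : Lev c V l lev) (g : ℕ) :
    V.card = ∑ i ∈ Finset.range l, (V.filter fun v => lev g v = i).card :=
  Finset.card_eq_sum_card_fiberwise fun v hv => Finset.mem_range.mpr (hL.lt g v hv)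

/-- if a colour touches every vertex of `V` then `V` is a union of `l` sets of rank one less -/
theorem card_le_of_touch (hB : BndAt l R) (hno : ∀ γ v, ¬ MP c V γ v l) (hR : Rk c V (R + 1))
    (ht : ∀ v ∈ V, Tch c V g v) : V.card ≤ l ^ (R + 1) := by
  obtain ⟨lev, hL, hM⟩ := exists_canon hno
  rw [card_eq_sum_levels hL g]
  calc ∑ i ∈ Finset.range l, (V.filter fun v => lev g v = i).card
      ≤ ∑ _i ∈ Finset.range l, l ^ R := by
        refine Finset.sum_le_sum fun i _ => ?_
        exact hB c _ lev (hL.mono (Finset.filter_subset _ _)) (Rk_level hL hM hR ht i)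
    _ = l ^ (R + 1) := by
        rw [Finset.sum_const, Finset.card_range, smul_eq_mul, pow_succ]
        ring

/-- if moreover `|V| = l ^ (R + 1)` then every level has exactly `l ^ R` vertices -/
theorem card_level_of_touch (hB : BndAt l R) (hL : Lev c V l lev)
    (hM : ∀ γ, ∀ v ∈ V, MP c V γ v (lev γ v)) (hR : Rk c V (R + 1))
    (ht : ∀ v ∈ V, Tch c V g v) (hcard : V.card = l ^ (R + 1)) {i : ℕ} (hi : i < l) :
    (V.filter fun v => lev g v = i).card = l ^ R := by
  have hle : ∀ j ∈ Finset.range l, (V.filter fun v => lev g v = j).card ≤ l ^ R := fun j _ =>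
    hB c _ lev (hL.mono (Finset.filter_subset _ _)) (Rk_level hL hM hR ht j)
  have hsum : ∑ j ∈ Finset.range l, (V.filter fun v => lev g v = j).card =
      ∑ _j ∈ Finset.range l, l ^ R := by
    rw [← card_eq_sum_levels hL g, hcard, Finset.sum_const, Finset.card_range, smul_eq_mul,
      pow_succ]
    ring
  exact (Finset.sum_eq_sum_iff_of_le hle).mp hsum i (Finset.mem_range.mpr hi)

/-- the statement (TOUCH) for one `l` and one `R` -/
def TouchAt (l R : ℕ) : Prop :=
  ∀ (c : ℕ → ℕ → ℕ) (V : Finset ℕ), (∀ γ v, ¬ MP c V γ v l) → Rk c V R → V.card = l ^ R →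
    ∃ g, ∀ v ∈ V, Tch c V g v

/-- helper7's reduction, local form: in a set with `l ^ (R + 1) + 1` vertices some deletion has no
touching colour -/
theorem exists_deletion (hl : 3 ≤ l) (hB : BndAt l R) (hno : ∀ γ v, ¬ MP c V γ v l)
    (hR : Rk c V (R + 1)) (hcard : V.card = l ^ (R + 1) + 1) :
    ∃ w ∈ V, ∀ g, ∃ v ∈ V.erase w, ¬ Tch c (V.erase w) g v := by
  by_contra hcon
  push Not at hcon
  choose! G hG using hcon
  have hsub : ∀ w, V.erase w ⊆ V := fun w => Finset.erase_subset _ _
  -- `w` is not touched by `G w`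
  have hw : ∀ w ∈ V, ¬ Tch c V (G w) w := by
    intro w hwV htw
    have h1 := card_le_of_touch (g := G w) hB hno hR (by
      intro v hv
      by_cases h : v = w
      · rw [h]; exact htw
      · exact (hG w hwV v (Finset.mem_erase.mpr ⟨h, hv⟩)).mono (hsub w))
    omega
  have hinj : ∀ w ∈ V, ∀ w' ∈ V, G w = G w' → w = w' := by
    intro w hwV w' hwV' heq
    by_contra hne
    have h1 := (hG w hwV w' (Finset.mem_erase.mpr ⟨Ne.symm hne, hwV'⟩)).mono (hsub w)
    rw [heq] at h1
    exact hw w' hwV' h1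
  have hne : V.Nonempty := by
    rw [← Finset.card_pos]; omega
  obtain ⟨w, hwV⟩ := hne
  have hnow : ∀ γ v, ¬ MP c (V.erase w) γ v l := fun γ v h => hno γ v (h.mono (hsub w))
  obtain ⟨lev, hL, hM⟩ := exists_canon hnow
  have hcw : (V.erase w).card = l ^ (R + 1) := by
    rw [Finset.card_erase_of_mem hwV, hcard]
    omega
  have h2 := card_level_of_touch (g := G w) hB hL hM (hR.sub (hsub w)) (hG w hwV) hcw
    (i := 2) (by omega)
  obtain ⟨d, hd⟩ : ((V.erase w).filter fun v => lev (G w) v = 2).Nonempty := by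
    rw [← Finset.card_pos, h2]
    exact Nat.pos_of_ne_zero (by positivity)
  obtain ⟨hdV, hd2⟩ := Finset.mem_filter.mp hd
  have hMd := hM (G w) d hdV
  rw [hd2] at hMd
  obtain ⟨a, v, ha, hv, hav, hvd, hcav, hcvd⟩ : ∃ a v, a ∈ V.erase w ∧ v ∈ V.erase w ∧ a < v ∧
      v < d ∧ c a v = G w ∧ c v d = G w := by
    cases hMd with
    | @step v _ _ h1 _ hvd hcvd =>
      cases h1 with
      | @step a _ _ h0 hv hav hcav =>
        cases h0 with
        | single ha => exact ⟨a, v, ha, hv, hav, hvd, hcav, hcvd⟩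
  have haV := hsub w ha
  have hvV := hsub w hv
  have hdV' := hsub w hdV
  -- the colours at `v`
  set f : ℕ → ℕ := fun u => if u < v then c u v else c v u with hf
  have himage : (V.erase v).image G ⊆ (V.erase v).image f := by
    intro γ hγ
    obtain ⟨w', hw', rfl⟩ := Finset.mem_image.mp hγ
    have hw'V := hsub v hw'
    have hvw' : v ∈ V.erase w' :=
      Finset.mem_erase.mpr ⟨Ne.symm (Finset.ne_of_mem_erase hw'), hvV⟩
    rcases hG w' hw'V v hvw' with ⟨u, hu, huv, hc⟩ | ⟨u, hu, huv, hc⟩
    · refine Finset.mem_image.mpr ⟨u, Finset.mem_erase.mpr ⟨by omega, hsub w' hu⟩, ?_⟩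
      rw [hf]
      simp only [huv, if_true]
      exact hc
    · refine Finset.mem_image.mpr ⟨u, Finset.mem_erase.mpr ⟨by omega, hsub w' hu⟩, ?_⟩
      rw [hf]
      simp only [not_lt.mpr huv.le, if_false]
      exact hc
  have hcardG : ((V.erase v).image G).card = (V.erase v).card := by
    refine Finset.card_image_of_injOn ?_
    intro x hx y hy hxy
    exact hinj x (hsub v hx) y (hsub v hy) hxy
  have hcardf : ((V.erase v).image f).card = (V.erase v).card := by
    refine le_antisymm Finset.card_image_le ?_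
    rw [← hcardG]
    exact Finset.card_le_card himage
  have hfinj := Finset.card_image_iff.mp hcardf
  have hfa : f a = G w := by
    rw [hf]
    simp only [hav, if_true]
    exact hcav
  have hfd : f d = G w := by
    rw [hf]
    simp only [not_lt.mpr hvd.le, if_false]
    exact hcvd
  have had : a = d := hfinj (Finset.mem_coe.mpr (Finset.mem_erase.mpr ⟨by omega, haV⟩))
    (Finset.mem_coe.mpr (Finset.mem_erase.mpr ⟨by omega, hdV'⟩)) (hfa.trans hfd.symm)
  omega

theorem BndAt_succ_of_TouchAt (hl : 3 ≤ l) (hB : BndAt l R) (ht : TouchAt l (R + 1)) :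
    BndAt l (R + 1) := by
  intro c V lev hL hR
  by_contra hlt
  obtain ⟨U, hUV, hU⟩ := Finset.exists_subset_card_eq (show l ^ (R + 1) + 1 ≤ V.card by omega)
  have hno : ∀ γ v, ¬ MP c U γ v l := (hL.mono hUV).noMP
  obtain ⟨w, hw, h⟩ := exists_deletion hl hB hno (hR.sub hUV) hU
  have hsub : U.erase w ⊆ U := Finset.erase_subset _ _
  obtain ⟨g, hg⟩ := ht c (U.erase w) (fun γ v h => hno γ v (h.mono hsub))
    ((hR.sub hUV).sub hsub) (by rw [Finset.card_erase_of_mem hw, hU]; omega)
  obtain ⟨v, hv, hv'⟩ := h g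
  exact hv' (hg v hv)

theorem BndAt_zero : BndAt l 0 := by
  intro c V lev _ hR
  simpa using card_le_one_of_Rk_zero hR

theorem Bnd_of_TouchAt (hl : 3 ≤ l) (h : ∀ R, 1 ≤ R → TouchAt l R) : Bnd l := by
  intro R
  induction R with
  | zero => exact BndAt_zero
  | succ R ih => exact BndAt_succ_of_TouchAt hl ih (h (R + 1) (Nat.succ_pos R))

/-! ## Blocked flashes -/

/-- a 2-flash `a, v, b` of colour `g` whose end arc cannot be recoloured with `g`: disjoint rainbow
paths without the colour `g` into `a` and out of `b` have together `R` edges -/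
def Blocked (c : ℕ → ℕ → ℕ) (V : Finset ℕ) (R : ℕ) : Prop :=
  ∃ a v b g, ∃ P Q : Finset ℕ, v ∈ V ∧ a < v ∧ v < b ∧ c a v = g ∧ c v b = g ∧ c a b ≠ g ∧
    RP c V a P ∧ RS c V b Q ∧ Disjoint P Q ∧ g ∉ P ∧ g ∉ Q ∧ P.card + Q.card = R

/-- the arc `a, b` gets the colour `g` -/
def rc (c : ℕ → ℕ → ℕ) (a b g : ℕ) : ℕ → ℕ → ℕ := fun x y => if x = a ∧ y = b then g else c x y

theorem rc_self {a b : ℕ} : rc c a b g a b = g := by
  simp [rc]

theorem rc_of_left {a b x y : ℕ} (h : x ≠ a) : rc c a b g x y = c x y := by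
  unfold rc
  rw [if_neg fun h1 => h h1.1]

theorem rc_of_right {a b x y : ℕ} (h : y ≠ b) : rc c a b g x y = c x y := by
  unfold rc
  rw [if_neg fun h1 => h h1.2]

/-- initial parts of rainbow paths -/
theorem RS.takes {x : ℕ} {D : Finset ℕ} (h : RS c V x D) :
    ∀ t ≤ D.card, ∃ D' ⊆ D, D'.card = t ∧ RS c V x D' := by
  induction h with
  | single hx =>
    intro t ht
    rw [Finset.card_empty] at ht
    exact ⟨∅, Finset.empty_subset _, by rw [Finset.card_empty]; omega, RS.single hx⟩
  | @step x y D h hx hlt hc ih =>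
    intro t ht
    rcases t with _ | t
    · exact ⟨∅, Finset.empty_subset _, rfl, RS.single hx⟩
    · rw [Finset.card_insert_of_notMem hc] at ht
      obtain ⟨D', hD', hcard, hRS⟩ := ih t (by omega)
      have hc' : c x y ∉ D' := fun h' => hc (hD' h')
      refine ⟨insert (c x y) D', Finset.insert_subset_insert _ hD', ?_, RS.step hRS hx hlt hc'⟩
      rw [Finset.card_insert_of_notMem hc', hcard]

theorem RQ.le {x y : ℕ} {D : Finset ℕ} (h : RQ c V x y D) : x ≤ y := by
  induction h with
  | single _ => exact le_rfl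
  | step _ _ hlt _ ih => exact ih.trans hlt.le

/-- closing a 2-flash makes no long monochromatic path -/
theorem MP.of_rc {a v b : ℕ} (hv : v ∈ V) (hav : a < v) (hvb : v < b) (h1 : c a v = g)
    (h2 : c v b = g) {γ x j : ℕ} (h : MP (rc c a b g) V γ x j) : ∃ j', j ≤ j' ∧ MP c V γ x j' := by
  induction h with
  | single hx => exact ⟨0, le_rfl, MP.single hx⟩
  | @step x y j h hy hlt hc ih =>
    obtain ⟨j', hj, hP⟩ := ih
    by_cases hxy : x = a ∧ y = b
    · obtain ⟨rfl, rfl⟩ := hxy
      rw [rc_self] at hc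
      exact ⟨j' + 2, by omega, MP.step (MP.step hP hv hav (h1.trans hc)) hy hvb (h2.trans hc)⟩
    · have h3 : rc c a b g x y = c x y := by
        unfold rc
        rw [if_neg hxy]
      rw [h3] at hc
      exact ⟨j' + 1, by omega, MP.step hP hy hlt hc⟩

/-- a rainbow path of the recoloured set -/
theorem RP.of_rc {a b : ℕ} (hab : a < b) {y : ℕ} {D : Finset ℕ} (h : RP (rc c a b g) V y D) :
    RP c V y D ∨ ∃ P Q : Finset ℕ, RP c V a P ∧ RQ c V b y Q ∧ Disjoint P Q ∧ g ∉ P ∧ g ∉ Q ∧
      D.card = P.card + Q.card + 1 ∧ D = insert g (P ∪ Q) := by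
  induction h with
  | single hx => exact Or.inl (RP.single hx)
  | @step x y D h hy hlt hc ih =>
    rcases ih with ih | ⟨P, Q, hP, hQ, hdis, hgP, hgQ, hcard, hD⟩
    · by_cases hxy : x = a ∧ y = b
      · obtain ⟨rfl, rfl⟩ := hxy
        right
        rw [rc_self] at hc
        refine ⟨D, ∅, ih, RQ.single hy, Finset.disjoint_empty_right _, hc,
          Finset.notMem_empty _, ?_, ?_⟩
        · rw [rc_self, Finset.card_insert_of_notMem hc, Finset.card_empty]
        · rw [rc_self, Finset.union_empty]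
      · left
        have h3 : rc c a b g x y = c x y := by
          unfold rc
          rw [if_neg hxy]
        rw [h3] at hc ⊢
        exact RP.step ih hy hlt hc
    · right
      have h4 := hQ.le
      have h3 : rc c a b g x y = c x y := rc_of_left (by omega)
      rw [h3] at hc ⊢
      have hc' := hc
      rw [hD, Finset.mem_insert, Finset.mem_union, not_or, not_or] at hc'
      obtain ⟨hcg, hcP, hcQ⟩ := hc'
      refine ⟨P, insert (c x y) Q, hP, RQ.step hQ hy hlt hcQ, ?_, hgP, ?_, ?_, ?_⟩
      · rw [Finset.disjoint_insert_right]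
        exact ⟨hcP, hdis⟩
      · rw [Finset.mem_insert, not_or]
        exact ⟨fun h => hcg h.symm, hgQ⟩
      · rw [Finset.card_insert_of_notMem hc, Finset.card_insert_of_notMem hcQ, hcard]
        omega
      · rw [hD, Finset.union_insert, Finset.insert_comm]

/-- closing a 2-flash which is not blocked -/
theorem Rk_rc {a v b : ℕ} (hv : v ∈ V) (hav : a < v) (hvb : v < b) (h1 : c a v = g)
    (h2 : c v b = g) (h3 : c a b ≠ g) (hR : Rk c V R) (hnb : ¬ Blocked c V R) :
    Rk (rc c a b g) V R := by
  intro y D hD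
  by_contra hlt
  rcases hD.of_rc (hav.trans hvb) with h | ⟨P, Q, hP, hQ, hdis, hgP, hgQ, hcard, _⟩
  · exact hlt (hR _ _ h)
  · obtain ⟨P', hP', hPc, hPP⟩ := hP.suffix (min P.card R) (min_le_left _ _)
    obtain ⟨Q', hQ', hQc, hQQ⟩ := hQ.toRS.takes (R - min P.card R) (by omega)
    refine hnb ⟨a, v, b, g, P', Q', hv, hav, hvb, h1, h2, h3, hPP, hQQ,
      (hdis.mono_left hP').mono_right hQ', fun h => hgP (hP' h), fun h => hgQ (hQ' h), ?_⟩
    rw [hPc, hQc]
    omega

/-- closing the double links of a block path one by one -/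
theorem close_links (hnb : ∀ c : ℕ → ℕ → ℕ, (∀ γ v, ¬ MP c V γ v l) → Rk c V R → ¬ Blocked c V R)
    (hno : ∀ γ v, ¬ MP c V γ v l) (hR : Rk c V R) {m : ℕ} {y G : ℕ → ℕ}
    (hy : ∀ i < m, y i < y (i + 1)) (hlink : ∀ i < m, Link c V (y i) (y (i + 1)) (G i)) :
    ∀ t ≤ m, ∃ c' : ℕ → ℕ → ℕ, (∀ γ v, ¬ MP c' V γ v l) ∧ Rk c' V R ∧
      (∀ i < m, Link c' V (y i) (y (i + 1)) (G i)) ∧ ∀ i < t, c' (y i) (y (i + 1)) = G i := by
  have hmono : ∀ i j, i < j → j ≤ m → y i < y j := by
    intro i j hij
    induction j with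
    | zero => omega
    | succ j ih =>
      intro hj
      rcases Nat.lt_or_ge i j with h | h
      · exact (ih h (by omega)).trans (hy j (by omega))
      · have : i = j := by omega
        subst this
        exact hy i (by omega)
  have hinj : ∀ i ≤ m, ∀ j ≤ m, y i = y j → i = j := by
    intro i hi j hj hij
    by_contra hne
    rcases lt_or_gt_of_ne hne with h | h
    · have := hmono i j h hj; omega
    · have := hmono j i h hi; omega
  intro t
  induction t with
  | zero => exact fun _ => ⟨c, hno, hR, hlink, fun i hi => absurd hi (Nat.not_lt_zero i)⟩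
  | succ t ih =>
    intro ht
    obtain ⟨c₁, hno₁, hR₁, hl₁, hs₁⟩ := ih (by omega)
    by_cases heq : c₁ (y t) (y (t + 1)) = G t
    · refine ⟨c₁, hno₁, hR₁, hl₁, fun i hi => ?_⟩
      rcases Nat.lt_or_ge i t with h | h
      · exact hs₁ i h
      · have : i = t := by omega
        subst this
        exact heq
    · obtain ⟨hyV, hlt, hor⟩ := hl₁ t (by omega)
      rcases hor with h | ⟨w, hw, htw, hwt, h1, h2⟩
      · exact absurd h heq
      · refine ⟨rc c₁ (y t) (y (t + 1)) (G t), ?_, ?_, ?_, ?_⟩
        · intro γ v hMP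
          obtain ⟨lev, hL⟩ := exists_Lev hno₁
          obtain ⟨j', hj', hM⟩ := hMP.of_rc hw htw hwt h1 h2
          have h5 := hM.le_lev hL
          have h6 := hL.lt γ v h5.1
          omega
        · exact Rk_rc hw htw hwt h1 h2 heq hR₁ (hnb c₁ hno₁ hR₁)
        · intro i hi
          obtain ⟨hyV', hlt', hor'⟩ := hl₁ i hi
          refine ⟨hyV', hlt', ?_⟩
          by_cases hit : i = t
          · left
            rw [hit]
            exact rc_self
          · have hne1 : y i ≠ y t := fun h => hit (hinj i (by omega) t (by omega) h)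
            have hne2 : y (i + 1) ≠ y (t + 1) := fun h => by
              have := hinj (i + 1) (by omega) (t + 1) (by omega) h
              omega
            rcases hor' with h | ⟨w', hw', h3, h4, h5, h6⟩
            · left
              rw [rc_of_left hne1]
              exact h
            · right
              exact ⟨w', hw', h3, h4, by rw [rc_of_left hne1]; exact h5,
                by rw [rc_of_right hne2]; exact h6⟩
        · intro i hi
          rcases Nat.lt_or_ge i t with h | h
          · rw [rc_of_left fun h' => by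
              have := hinj i (by omega) t (by omega) h'
              omega]
            exact hs₁ i h
          · have : i = t := by omega
            subst this
            exact rc_self

/-- helper20's reduction: if no `V` with `l ^ R + 1` vertices, of rank at most `R` and without
`l`-flash, has a blocked flash, then there is no such `V` -/
theorem BndAt_of_not_Blocked (hl : 1 ≤ l)
    (h : ∀ (c : ℕ → ℕ → ℕ) (V : Finset ℕ), (∀ γ v, ¬ MP c V γ v l) → Rk c V R →
      V.card = l ^ R + 1 → ¬ Blocked c V R) : BndAt l R := by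
  intro c V₀ lev hL₀ hR₀
  by_contra hlt
  obtain ⟨V, hVV, hV⟩ := Finset.exists_subset_card_eq (show l ^ R + 1 ≤ V₀.card by omega)
  have hL := hL₀.mono hVV
  have hR := hR₀.sub hVV
  have hno := hL.noMP
  have hne : V.Nonempty := by
    rw [← Finset.card_pos]; omega
  obtain ⟨z, D, hBF, hcard⟩ := block_set (L := fun _ => l) hno (V.min'_mem hne)
    (fun v hv => V.min'_le v hv)
  rw [Finset.prod_const] at hcard
  have hD : R < D.card := by
    by_contra hle
    have h1 := Nat.pow_le_pow_right hl (not_lt.mp hle)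
    omega
  obtain ⟨y, G, hx, _, h1, h2, h4, h5⟩ := hBF.toFun
  obtain ⟨c', hno', hR', _, hs⟩ := close_links (m := D.card)
    (fun c hno hR => h c V hno hR hV) hno hR (fun i hi => (h2 i hi).2.1) h2 D.card le_rfl
  have hpath : ∀ j ≤ D.card, RP c' V (y j) ((Finset.range j).image G) := by
    intro j
    induction j with
    | zero => exact fun _ => by simpa using RP.single (h1 0 (Nat.zero_le _))
    | succ j ih =>
      intro hj
      have h6 := RP.step (c := c') (ih (by omega)) (h1 (j + 1) hj) (h2 j (by omega)).2.1 (by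
        rw [hs j (by omega)]
        intro hmem
        obtain ⟨i, hi, hij⟩ := Finset.mem_image.mp hmem
        have hi' := Finset.mem_range.mp hi
        have := h4 i (by omega) j (by omega) hij
        omega)
      rw [hs j (by omega)] at h6
      rw [Finset.range_add_one, Finset.image_insert]
      exact h6
  have h7 := hR' _ _ (hpath D.card le_rfl)
  rw [Finset.card_image_of_injOn, Finset.card_range] at h7
  · omega
  · intro i hi j hj hij
    exact h4 i (Finset.mem_range.mp hi) j (Finset.mem_range.mp hj) hij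

theorem Bnd_of_not_Blocked (hl : 1 ≤ l)
    (h : ∀ (R : ℕ) (c : ℕ → ℕ → ℕ) (V : Finset ℕ), (∀ γ v, ¬ MP c V γ v l) → Rk c V R →
      V.card = l ^ R + 1 → ¬ Blocked c V R) : Bnd l := fun R => BndAt_of_not_Blocked hl (h R)

/-! ## The frozen statement -/

/-- the frozen statement S08791 from touching colours of the sets with exactly `3 ^ R` vertices -/
theorem S08791_of_Touch (h : ∀ R, 1 ≤ R → TouchAt 3 R) :
    ∀ k : ℕ, 1 ≤ k →
      (∃ c : Fin (3 ^ (k - 1)) → Fin (3 ^ (k - 1)) → ℕ,
          (¬ ∃ x : Fin (3 + 1) → Fin (3 ^ (k - 1)), StrictMono x ∧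
              ∃ col : ℕ, ∀ i : Fin 3, c (x i.castSucc) (x i.succ) = col) ∧
          (¬ ∃ y : Fin (k + 1) → Fin (3 ^ (k - 1)), StrictMono y ∧
              Function.Injective (fun i : Fin k => c (y i.castSucc) (y i.succ)))) ∧
      (∀ c : Fin (3 ^ (k - 1) + 1) → Fin (3 ^ (k - 1) + 1) → ℕ,
          (∃ x : Fin (3 + 1) → Fin (3 ^ (k - 1) + 1), StrictMono x ∧
              ∃ col : ℕ, ∀ i : Fin 3, c (x i.castSucc) (x i.succ) = col) ∨
          (∃ y : Fin (k + 1) → Fin (3 ^ (k - 1) + 1), StrictMono y ∧
              Function.Injective (fun i : Fin k => c (y i.castSucc) (y i.succ)))) :=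
  S08791_of_Bnd (Bnd_of_TouchAt le_rfl h)

/-- the frozen statement S08791 if no set with `3 ^ R + 1` vertices has a blocked flash -/
theorem S08791_of_not_Blocked
    (h : ∀ (R : ℕ) (c : ℕ → ℕ → ℕ) (V : Finset ℕ), (∀ γ v, ¬ MP c V γ v 3) → Rk c V R →
      V.card = 3 ^ R + 1 → ¬ Blocked c V R) :
    ∀ k : ℕ, 1 ≤ k →
      (∃ c : Fin (3 ^ (k - 1)) → Fin (3 ^ (k - 1)) → ℕ,
          (¬ ∃ x : Fin (3 + 1) → Fin (3 ^ (k - 1)), StrictMono x ∧
              ∃ col : ℕ, ∀ i : Fin 3, c (x i.castSucc) (x i.succ) = col) ∧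
          (¬ ∃ y : Fin (k + 1) → Fin (3 ^ (k - 1)), StrictMono y ∧
              Function.Injective (fun i : Fin k => c (y i.castSucc) (y i.succ)))) ∧
      (∀ c : Fin (3 ^ (k - 1) + 1) → Fin (3 ^ (k - 1) + 1) → ℕ,
          (∃ x : Fin (3 + 1) → Fin (3 ^ (k - 1) + 1), StrictMono x ∧
              ∃ col : ℕ, ∀ i : Fin 3, c (x i.castSucc) (x i.succ) = col) ∨
          (∃ y : Fin (k + 1) → Fin (3 ^ (k - 1) + 1), StrictMono y ∧
              Function.Injective (fun i : Fin k => c (y i.castSucc) (y i.succ)))) :=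
  S08791_of_Bnd (Bnd_of_not_Blocked (by norm_num) h)

end FlashRainbow
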